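import Pool.Agent.N375.RF.Basic

set_option autoImplicit false
set_option linter.dupNamespace false
set_option linter.unusedSectionVars false

/-!
# Project RF, Lemma 0: a path of `T` leaves (helper124)
-/

namespace Pool.Agent.N124.RF0

open Finset Classical Pool.Agent.N375.RF

variable {V : Type} [Fintype V]

/-- hang the path `f 0, f 1, …` below `v` -/
noncomputable def mv {T : ℕ} (p : V → V) (v : V) (f : Fin T → V) : V → V := fun x =>
  if h : ∃ i, f i = x then (Fin.cons v f : Fin (T + 1) → V) h.choose.castSucc else p x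

theorem mv_mem {T : ℕ} (p : V → V) (v : V) {f : Fin T → V} (hf : Function.Injective f)
    (i : Fin T) : mv p v f (f i) = (Fin.cons v f : Fin (T + 1) → V) i.castSucc := by
  have h : ∃ j, f j = f i := ⟨i, rfl⟩
  unfold mv
  rw [dif_pos h]
  have := hf h.choose_spec
  rw [this]

theorem mv_notMem {T : ℕ} (p : V → V) (v : V) {f : Fin T → V} {x : V} (hx : ∀ i, f i ≠ x) :
    mv p v f x = p x := by
  unfold mv
  rw [dif_neg]
  rintro ⟨i, hi⟩
  exact hx i hi

/-- the conditions on `(p, v, f)` -/
structure Ok {T : ℕ} (C : Finset V) (p : V → V) (v : V) (f : Fin T → V) : Prop where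
  rf : IsRF C p
  hv : v ∈ C
  inj : Function.Injective f
  leaf : ∀ i, Leaf C p (f i)
  notMem : ∀ i, f i ∉ L p v

theorem Ok.iter {T : ℕ} {C : Finset V} {p : V → V} {v : V} {f : Fin T → V} (h : Ok C p v f)
    {x : V} (hx : ∀ i, f i ≠ x) (k : ℕ) :
    (mv p v f)^[k] x = p^[k] x ∧ ∀ i, f i ≠ p^[k] x := by
  induction k with
  | zero => exact ⟨rfl, hx⟩
  | succ k ih =>
    rw [Function.iterate_succ_apply', Function.iterate_succ_apply', ih.1, mv_notMem p v ih.2]
    exact ⟨rfl, fun i hi => (h.leaf i).2 _ hi.symm⟩

theorem Ok.ne_root {T : ℕ} {C : Finset V} {p : V → V} {v : V} {f : Fin T → V} (h : Ok C p v f)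
    {x : V} (hx : x ∈ C) : ∀ i, f i ≠ x := by
  intro i hi
  exact (h.leaf i).1 (hi ▸ hx)

theorem Ok.reach {T : ℕ} {C : Finset V} {p : V → V} {v : V} {f : Fin T → V} (h : Ok C p v f) :
    ∀ (k : ℕ) (i : Fin T), (i : ℕ) = k → (mv p v f)^[k + 1] (f i) = v := by
  intro k
  induction k with
  | zero =>
    intro i hi
    rw [zero_add, Function.iterate_one, mv_mem p v h.inj]
    have : i.castSucc = 0 := Fin.ext hi
    rw [this, Fin.cons_zero]
  | succ k ih =>
    intro i hi
    rw [Function.iterate_succ_apply, mv_mem p v h.inj]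
    have hk : k < T := by have := i.2; omega
    have : i.castSucc = (⟨k, hk⟩ : Fin T).succ := by
      apply Fin.ext
      simp [hi]
    rw [this, Fin.cons_succ]
    exact ih ⟨k, hk⟩ rfl

theorem Ok.mem_L_v {T : ℕ} {C : Finset V} {p : V → V} {v : V} {f : Fin T → V} (h : Ok C p v f)
    (i : Fin T) : f i ∈ L (mv p v f) v := mem_L.mpr ⟨_, h.reach _ i rfl⟩

theorem Ok.isRF {T : ℕ} {C : Finset V} {p : V → V} {v : V} {f : Fin T → V} (h : Ok C p v f) :
    IsRF C (mv p v f) := by
  constructor
  · intro x hx
    rw [mv_notMem p v (h.ne_root hx), h.rf.fix hx]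
  · intro x
    by_cases hx : ∃ i, f i = x
    · obtain ⟨i, rfl⟩ := hx
      exact ⟨_, by rw [h.reach _ i rfl]; exact h.hv⟩
    · push Not at hx
      obtain ⟨k, hk⟩ := h.rf.2 x
      exact ⟨k, by rw [(h.iter hx k).1]; exact hk⟩

theorem Ok.L_v {T : ℕ} {C : Finset V} {p : V → V} {v : V} {f : Fin T → V} (h : Ok C p v f) :
    (L (mv p v f) v).card = (L p v).card + T := by
  have h1 : L (mv p v f) v = L p v ∪ univ.image f := by
    ext x
    by_cases hx : ∃ i, f i = x
    · obtain ⟨i, rfl⟩ := hx
      simp only [h.mem_L_v i, mem_union, mem_image, mem_univ, true_and, true_iff]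
      exact Or.inr ⟨i, rfl⟩
    · push Not at hx
      have h2 : x ∉ univ.image f := by
        simp only [mem_image, mem_univ, true_and, not_exists]
        exact hx
      simp only [mem_union, h2, or_false]
      rw [mem_L, mem_L]
      constructor
      · rintro ⟨k, hk⟩
        exact ⟨k, by rw [← (h.iter hx k).1]; exact hk⟩
      · rintro ⟨k, hk⟩
        exact ⟨k, by rw [(h.iter hx k).1]; exact hk⟩
  rw [h1, card_union_of_disjoint, card_image_of_injective _ h.inj, card_univ, Fintype.card_fin]
  rw [Finset.disjoint_right]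
  intro x hx
  obtain ⟨i, -, rfl⟩ := mem_image.mp hx
  exact h.notMem i

theorem Ok.L_u {T : ℕ} {C : Finset V} {p : V → V} {v : V} {f : Fin T → V} (h : Ok C p v f)
    {u : V} (hu : u ∈ C) (huv : u ≠ v) : L (mv p v f) u = L p u \ univ.image f := by
  ext x
  by_cases hx : ∃ i, f i = x
  · obtain ⟨i, rfl⟩ := hx
    simp only [mem_sdiff, mem_image, mem_univ, true_and]
    constructor
    · intro h1
      exact absurd (h.isRF.root_unique hu h.hv h1 (h.mem_L_v i)) huv
    · intro h1
      exact absurd ⟨i, rfl⟩ h1.2
  · have h2 : x ∉ univ.image f := by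
      simp only [mem_image, mem_univ, true_and]
      exact hx
    push Not at hx
    simp only [mem_sdiff, h2, not_false_eq_true, and_true]
    rw [mem_L, mem_L]
    constructor
    · rintro ⟨k, hk⟩
      exact ⟨k, by rw [← (h.iter hx k).1]; exact hk⟩
    · rintro ⟨k, hk⟩
      exact ⟨k, by rw [(h.iter hx k).1]; exact hk⟩

/-- the only preimage of `f i` is `f (i + 1)` -/
theorem Ok.pre {T : ℕ} {C : Finset V} {p : V → V} {v : V} {f : Fin T → V} (h : Ok C p v f)
    {x : V} {i : Fin T} (hx : mv p v f x = f i) : ∃ j : Fin T, (j : ℕ) = i + 1 ∧ x = f j := by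
  by_cases hx' : ∃ j, f j = x
  · obtain ⟨j, rfl⟩ := hx'
    rw [mv_mem p v h.inj] at hx
    rcases Nat.eq_zero_or_pos (j : ℕ) with hj | hj
    · have : j.castSucc = 0 := Fin.ext hj
      rw [this, Fin.cons_zero] at hx
      exact absurd hx.symm (h.ne_root h.hv i)
    · have hk : (j : ℕ) - 1 < T := by have := j.2; omega
      have h1 : j.castSucc = (⟨(j : ℕ) - 1, hk⟩ : Fin T).succ := by
        apply Fin.ext
        simp only [Fin.val_castSucc, Fin.val_succ]
        omega
      rw [h1, Fin.cons_succ] at hx
      have := h.inj hx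
      refine ⟨j, ?_, rfl⟩
      rw [← this]
      simp only
      omega
  · push Not at hx'
    rw [mv_notMem p v hx'] at hx
    exact absurd hx ((h.leaf i).2 x)

theorem Ok.succ {T : ℕ} {C : Finset V} {p : V → V} {v : V} {f : Fin T → V} (h : Ok C p v f)
    {i j : Fin T} (hj : (j : ℕ) = i + 1) : mv p v f (f j) = f i := by
  rw [mv_mem p v h.inj]
  have h1 : j.castSucc = i.succ := by
    apply Fin.ext
    simp only [Fin.val_castSucc, Fin.val_succ]
    omega
  rw [h1, Fin.cons_succ]

/-- `f` and `p` are determined by the new forest, `f 0` and the old values -/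
theorem Ok.unique {T : ℕ} {C : Finset V} {p q : V → V} {v w : V} {f g : Fin (T + 1) → V}
    (h : Ok C p v f) (h' : Ok C q w g) (he : mv p v f = mv q w g) (h0 : f 0 = g 0)
    (hpq : ∀ i, p (f i) = q (g i)) : f = g ∧ p = q := by
  have hfg : ∀ (k : ℕ) (i : Fin (T + 1)), (i : ℕ) = k → f i = g i := by
    intro k
    induction k with
    | zero =>
      intro i hi
      have : i = 0 := Fin.ext hi
      rw [this, h0]
    | succ k ih =>
      intro i hi
      have hk : k < T + 1 := by have := i.2; omega
      have h1 : mv p v f (g i) = f ⟨k, hk⟩ := by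
        rw [he, ih ⟨k, hk⟩ rfl]
        exact h'.succ hi
      obtain ⟨j, hj, hj'⟩ := h.pre h1
      have : i = j := Fin.ext (by rw [hi, hj])
      rw [hj', this]
  have hfg' : f = g := funext (fun i => hfg _ i rfl)
  refine ⟨hfg', ?_⟩
  subst hfg'
  funext x
  by_cases hx : ∃ i, f i = x
  · obtain ⟨i, rfl⟩ := hx
    exact hpq i
  · push Not at hx
    have := congrFun he x
    rwa [mv_notMem p v hx, mv_notMem q w hx] at this

/-- number of injective functions with values in a set -/
theorem card_inj (S : Finset V) (T : ℕ) :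
    S.card.descFactorial T ≤
      (univ.filter (fun f : Fin T → V => Function.Injective f ∧ ∀ i, f i ∈ S)).card := by
  have h1 : Fintype.card (Fin T ↪ {x // x ∈ S}) = S.card.descFactorial T := by
    rw [Fintype.card_embedding_eq, Fintype.card_fin, Fintype.card_coe]
  rw [← h1, ← Finset.card_univ]
  apply Finset.card_le_card_of_injOn (fun e i => ((e i : {x // x ∈ S}) : V))
  · intro e _
    simp only [coe_filter, mem_univ, true_and, Set.mem_ofPred_eq]
    exact ⟨fun i j hij => e.injective (Subtype.ext hij), fun i => (e i).2⟩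
  · intro e _ e' _ hee
    apply DFunLike.ext
    intro i
    exact Subtype.ext (congrFun hee i)

def R1 {T : ℕ} (p : V → V) (x : (V → V) × V × (Fin T → V)) : Prop := x.1 = p
def R2 {T : ℕ} (v : V) (x : (V → V) × V × (Fin T → V)) : Prop := x.2.1 = v
def R3 {T : ℕ} (x : (V → V) × V × (Fin T → V)) (p' : V → V) : Prop :=
  p' = mv x.1 x.2.1 x.2.2

theorem lem0 : St0 := by
  intro V _ C a T Λ hT hTL
  obtain ⟨t, rfl⟩ : ∃ t, T = t + 1 := ⟨T - 1, by omega⟩
  set A := (RF C).filter (fun p => a ≤ (leaves C p).card ∧
      ∀ s, t + 1 ≤ s → s ≤ Λ → N C p s = 0) with hA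
  set n := Fintype.card V with hn
  set X : Finset ((V → V) × V × (Fin (t + 1) → V)) :=
    univ.filter (fun x => x.1 ∈ A ∧ Ok C x.1 x.2.1 x.2.2 ∧ (L x.1 x.2.1).card < t + 1) with hX
  -- sizes
  have hsz : ∀ p ∈ A, ∀ u ∈ C, (L p u).card < t + 1 ∨ Λ < (L p u).card := by
    intro p hp u hu
    by_contra hcon
    push Not at hcon
    have h1 := (mem_filter.mp hp).2.2 _ hcon.1 hcon.2
    unfold N at h1
    rw [card_eq_zero] at h1
    have : u ∈ C.filter (fun v => (L p v).card = (L p u).card) := mem_filter.mpr ⟨hu, rfl⟩
    rw [h1] at this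
    simp at this
  -- lower bound
  have hlow : A.card * ((C.card - n / Λ) * (a - 2 * (t + 1)) ^ (t + 1)) ≤ X.card * 1 := by
    apply double_count A X R1
    · intro p hp
      have hrf : IsRF C p := mem_RF.mp (mem_filter.mp hp).1
      set D := C.filter (fun v => (L p v).card < t + 1) with hD
      have hDc : C.card - n / Λ ≤ D.card := by
        have h1 := hrf.card_large Λ
        have h2 : (C.filter (fun v => Λ < (L p v).card)).card ≤ n / Λ := by
          rw [Nat.le_div_iff_mul_le (by omega)]
          calc _ ≤ (C.filter (fun v => Λ < (L p v).card)).card * (Λ + 1) :=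
                Nat.mul_le_mul_left _ (Nat.le_succ _)
            _ ≤ n := h1
        have h3 : C ⊆ D ∪ C.filter (fun v => Λ < (L p v).card) := by
          intro u hu
          rcases hsz p hp u hu with h4 | h4
          · exact mem_union_left _ (mem_filter.mpr ⟨hu, h4⟩)
          · exact mem_union_right _ (mem_filter.mpr ⟨hu, h4⟩)
        have h4 := (card_le_card h3).trans (card_union_le _ _)
        omega
      have h5 : D.card * (a - 2 * (t + 1)) ^ (t + 1) ≤ (X.filter (fun x => R1 p x)).card * 1 := by
        apply double_count D (X.filter (fun x => R1 p x)) R2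
        · intro v hv
          obtain ⟨hvC, hvs⟩ := mem_filter.mp hv
          set S := leaves C p \ L p v with hS
          have hSc : a - t ≤ S.card := by
            have h6 : (leaves C p).card ≤ S.card + (L p v).card := by
              exact card_le_card_sdiff_add_card
            have h7 := (mem_filter.mp hp).2.1
            omega
          calc (a - 2 * (t + 1)) ^ (t + 1) ≤ (S.card + 1 - (t + 1)) ^ (t + 1) := by
                apply Nat.pow_le_pow_left
                omega
            _ ≤ S.card.descFactorial (t + 1) := Nat.pow_sub_le_descFactorial _ _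
            _ ≤ _ := card_inj S (t + 1)
            _ ≤ _ := by
                apply Finset.card_le_card_of_injOn (fun f => (p, v, f))
                · intro f hf
                  simp only [coe_filter, mem_univ, true_and, Set.mem_ofPred_eq] at hf
                  refine Finset.mem_coe.mpr (mem_filter.mpr ⟨mem_filter.mpr ⟨mem_filter.mpr ⟨mem_univ _, hp,
                    ⟨hrf, hvC, hf.1, fun i => ?_, fun i => ?_⟩, hvs⟩, rfl⟩, rfl⟩)
                  · exact mem_leaves.mp (mem_sdiff.mp (hf.2 i)).1
                  · exact (mem_sdiff.mp (hf.2 i)).2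
                · intro f _ g _ hfg
                  simpa using hfg
        · intro x _
          apply (card_le_card (t := {x.2.1}) _).trans (by simp)
          intro v hv
          exact mem_singleton.mpr (mem_filter.mp hv).2.symm
      rw [mul_one] at h5
      exact (Nat.mul_le_mul_right _ hDc).trans h5
    · intro x _
      apply (card_le_card (t := {x.1}) _).trans (by simp)
      intro v hv
      exact mem_singleton.mpr (mem_filter.mp hv).2.symm
  -- upper bound
  have hup : X.card * 1 ≤ (RF C).card * (2 * (t + 1) * n ^ (t + 1)) := by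
    apply double_count X (RF C) R3
    · intro x hx
      obtain ⟨-, hxA, hok, hs⟩ := mem_filter.mp hx
      apply Finset.card_pos.mpr
      exact ⟨mv x.1 x.2.1 x.2.2, mem_filter.mpr ⟨mem_RF.mpr hok.isRF, rfl⟩⟩
    · intro p' hp'
      rcases (X.filter (fun x => R3 x p')).eq_empty_or_nonempty with he | hne
      · rw [he]; simp
      obtain ⟨x₀, hx₀⟩ := hne
      obtain ⟨hx₀X, hx₀p⟩ := mem_filter.mp hx₀
      obtain ⟨-, hxA₀, hok₀, hs₀⟩ := mem_filter.mp hx₀X
      have hcard : (L p' x₀.2.1).card ≤ 2 * (t + 1) := by
        rw [hx₀p, hok₀.L_v]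
        omega
      have hv : ∀ x ∈ X.filter (fun x => R3 x p'), x.2.1 = x₀.2.1 := by
        intro x hx
        obtain ⟨hxX, hxp⟩ := mem_filter.mp hx
        obtain ⟨-, hxA, hok, hs⟩ := mem_filter.mp hxX
        by_contra hne
        have h1 := hok₀.L_u hok.hv hne
        have h2 := hok.L_v
        rw [← hx₀p] at h1
        rw [← hxp] at h2
        rcases hsz x₀.1 hxA₀ x.2.1 hok.hv with h3 | h3
        · have h4 : (L p' x.2.1).card ≤ (L x₀.1 x.2.1).card := by
            rw [h1]
            exact card_le_card sdiff_subset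
          have h5 : 0 < (L x.1 x.2.1).card := card_pos.mpr ⟨_, self_mem_L _ _⟩
          omega
        · have h4 : (L x₀.1 x.2.1).card ≤ (L p' x.2.1).card + (t + 1) := by
            rw [h1]
            calc (L x₀.1 x.2.1).card ≤ (L x₀.1 x.2.1 \ univ.image x₀.2.2).card +
                  (univ.image x₀.2.2).card := card_le_card_sdiff_add_card
              _ ≤ _ := by
                  apply Nat.add_le_add_left
                  exact card_image_le.trans (by simp)
          omega
      calc (X.filter (fun x => R3 x p')).card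
          ≤ ((L p' x₀.2.1) ×ˢ (univ : Finset (Fin (t + 1) → V))).card := by
            apply Finset.card_le_card_of_injOn (fun x => (x.2.2 0, fun i => x.1 (x.2.2 i)))
            · intro x hx
              have hx' := Finset.mem_coe.mp hx
              have hv1 := hv x hx'
              obtain ⟨hxX, hxp⟩ := mem_filter.mp hx'
              obtain ⟨-, hxA, hok, hs⟩ := mem_filter.mp hxX
              simp only [coe_product, coe_univ, Set.mem_prod, Set.mem_univ, and_true]
              rw [← hv1, hxp]
              exact hok.mem_L_v 0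
            · intro x hx y hy hxy
              have hx' := Finset.mem_coe.mp hx
              have hy' := Finset.mem_coe.mp hy
              have hv1 := hv x hx'
              have hv2 := hv y hy'
              obtain ⟨hxX, hxp⟩ := mem_filter.mp hx'
              obtain ⟨-, hxA, hok, hs⟩ := mem_filter.mp hxX
              obtain ⟨hyX, hyp⟩ := mem_filter.mp hy'
              obtain ⟨-, hyA, hok', hs'⟩ := mem_filter.mp hyX
              simp only [Prod.mk.injEq] at hxy
              obtain ⟨h1, h2⟩ := hok.unique hok' (hxp ▸ hyp) hxy.1 (fun i => congrFun hxy.2 i)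
              exact Prod.ext h2 (Prod.ext (hv1.trans hv2.symm) h1)
        _ = (L p' x₀.2.1).card * n ^ (t + 1) := by
            rw [card_product, card_univ, Fintype.card_fun, Fintype.card_fin]
        _ ≤ 2 * (t + 1) * n ^ (t + 1) := Nat.mul_le_mul_right _ hcard
  exact hlow.trans hup

end Pool.Agent.N124.RF0
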