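import Mathlib

/-!
# Project TB (helper347), part REG (helper124): regular supergraphs with the same number of colours
-/

set_option autoImplicit false

namespace Pool.Agent.N124.TBREG

open Finset

/-- Two copies of `G`, the two copies of a vertex of degree less than `r` being joined. -/
def dbl {V : Type} (G : SimpleGraph V) (r : ℕ) : SimpleGraph (V × Bool) where
  Adj x y := (x.2 = y.2 ∧ G.Adj x.1 y.1) ∨
    (x.2 ≠ y.2 ∧ x.1 = y.1 ∧ (G.neighborSet x.1).ncard < r)
  symm := ⟨fun x y h => by
    rcases h with h | h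
    · exact Or.inl ⟨h.1.symm, h.2.symm⟩
    · exact Or.inr ⟨h.1.symm, h.2.1.symm, h.2.1 ▸ h.2.2⟩⟩
  loopless := ⟨fun x h => by
    rcases h with h | h
    · exact G.loopless.irrefl _ h.2
    · exact h.1 rfl⟩

theorem dbl_deg {V : Type} [Finite V] (G : SimpleGraph V) (r : ℕ) (x : V × Bool) :
    ((dbl G r).neighborSet x).ncard = (G.neighborSet x.1).ncard +
      if (G.neighborSet x.1).ncard < r then 1 else 0 := by
  classical
  obtain ⟨v, b⟩ := x
  have hinj : Function.Injective (fun u : V => (u, b)) := fun a c h => (Prod.mk.inj h).1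
  have h1 : (dbl G r).neighborSet (v, b) = (fun u => (u, b)) '' (G.neighborSet v) ∪
      (if (G.neighborSet v).ncard < r then {(v, !b)} else ∅) := by
    ext ⟨u, c⟩
    simp only [SimpleGraph.mem_neighborSet, dbl, Set.mem_union, Set.mem_image, Prod.mk.injEq]
    by_cases hlt : (G.neighborSet v).ncard < r
    · simp only [hlt, if_true, and_true, Set.mem_singleton_iff, Prod.mk.injEq]
      constructor
      · rintro (⟨h1, h2⟩ | ⟨h1, h2⟩)
        · exact Or.inl ⟨u, h2, rfl, h1⟩
        · refine Or.inr ⟨h2.symm, ?_⟩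
          cases b <;> cases c <;> simp_all
      · rintro (⟨w, h1, h2, h3⟩ | ⟨h1, h2⟩)
        · subst h2
          exact Or.inl ⟨h3, h1⟩
        · refine Or.inr ⟨?_, h1.symm⟩
          rw [h2]; cases b <;> simp
    · simp only [hlt, if_false, and_false, or_false, Set.mem_empty_iff_false]
      constructor
      · rintro ⟨h1, h2⟩
        exact ⟨u, h2, rfl, h1⟩
      · rintro ⟨w, h1, h2, h3⟩
        subst h2
        exact ⟨h3, h1⟩
  rw [h1]
  by_cases hlt : (G.neighborSet v).ncard < r
  · simp only [hlt, if_true]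
    rw [Set.ncard_union_eq]
    · rw [Set.ncard_image_of_injective _ hinj, Set.ncard_singleton]
    · rw [Set.disjoint_left]
      rintro ⟨u, c⟩ ⟨w, _, h2⟩ h3
      rw [Set.mem_singleton_iff] at h3
      have h4 := (Prod.mk.inj h2).2
      have h5 := (Prod.mk.inj h3).2
      rw [← h4] at h5
      cases b <;> simp at h5
  · simp only [hlt, if_false, Set.union_empty, add_zero]
    rw [Set.ncard_image_of_injective _ hinj]

theorem dbl_col {V : Type} (G : SimpleGraph V) (d k : ℕ) (hc : G.Colorable (k + 2)) :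
    (dbl G d).Colorable (k + 2) := by
  obtain ⟨c⟩ := hc
  have h01 : (1 : Fin (k + 2)) ≠ 0 := by simp
  refine ⟨SimpleGraph.Coloring.mk (fun x => if x.2 then c x.1 + 1 else c x.1) ?_⟩
  rintro ⟨u, a⟩ ⟨v, b⟩ h
  simp only [dbl] at h
  rcases h with ⟨h1, h2⟩ | ⟨h1, h2, -⟩
  · subst h1
    have h3 := c.valid h2
    cases a <;> simpa using h3
  · subst h2
    cases a <;> cases b <;> simp_all

theorem aux (d k : ℕ) : ∀ (m : ℕ) (V : Type) [Finite V] (G : SimpleGraph V),
    (∀ v, (G.neighborSet v).ncard ≤ d) → (∀ v, d ≤ (G.neighborSet v).ncard + m) →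
    G.Colorable (k + 2) →
    ∃ (V' : Type) (_ : Fintype V') (H' : SimpleGraph V') (j : V → V'), Function.Injective j ∧
      (∀ u v, G.Adj u v ↔ H'.Adj (j u) (j v)) ∧ (∀ v, (H'.neighborSet v).ncard = d) ∧
      H'.Colorable (k + 2) := by
  intro m
  induction m with
  | zero =>
    intro V _ G h1 h2 h3
    exact ⟨V, Fintype.ofFinite V, G, id, Function.injective_id, fun u v => Iff.rfl,
      fun v => le_antisymm (h1 v) (h2 v), h3⟩
  | succ m ih =>
    intro V _ G h1 h2 h3
    obtain ⟨W, hW, H, j, hj, hadj, hdeg, hcol⟩ := ih (V × Bool) (dbl G d)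
      (by
        intro x
        rw [dbl_deg]
        have := h1 x.1
        split_ifs with h <;> omega)
      (by
        intro x
        rw [dbl_deg]
        have := h2 x.1
        split_ifs with h <;> omega)
      (dbl_col G d k h3)
    refine ⟨W, hW, H, fun v => j (v, false), ?_, ?_, hdeg, hcol⟩
    · intro a b h
      exact (Prod.mk.inj (hj h)).1
    · intro a b
      rw [← hadj]
      simp [dbl]

/-- Every `r`-coloured graph is an induced subgraph of a `d`-regular `r`-coloured one. -/
theorem reg {V : Type} [Finite V] (H : SimpleGraph V) (d r : ℕ) (hr : 2 ≤ r)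
    (hd : ∀ v, (H.neighborSet v).ncard ≤ d) (hc : H.Colorable r) :
    ∃ (V' : Type) (_ : Fintype V') (H' : SimpleGraph V') (j : V → V'), Function.Injective j ∧
      (∀ u v, H.Adj u v ↔ H'.Adj (j u) (j v)) ∧ (∀ v, (H'.neighborSet v).ncard = d) ∧
      H'.Colorable r := by
  obtain ⟨k, rfl⟩ : ∃ k, r = k + 2 := ⟨r - 2, by omega⟩
  exact aux d k d V H hd (fun v => by omega) hc

end Pool.Agent.N124.TBREG
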